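import Pool.Agent.W935.SK.Stm

/-! SK-BI: the two-sided sequence and integral sequences. -/

set_option autoImplicit false

namespace Pool.Agent.W919.SK.BI

open Finset Pool.Agent.H884R2.Sko Pool.Agent.W935.SK

variable {e : ℕ}

theorem seq_mul (b x : Fin (e + 1) → ℤ) (q : ℤ) (n : ℕ) :
    seq b (fun i => q * x i) n = q * seq b x n := by
  symm
  apply eq_seq b (fun i => q * x i) (fun n => q * seq b x n)
  · intro n
    rw [seq_sol, mul_sum]
    exact sum_congr rfl fun i _ => by ring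
  · intro i
    rw [seq_init]

theorem seq_add (b x y : Fin (e + 1) → ℤ) (n : ℕ) :
    seq b (x + y) n = seq b x n + seq b y n := by
  symm
  apply eq_seq b (x + y) (fun n => seq b x n + seq b y n)
  · intro n
    rw [seq_sol, seq_sol, ← sum_add_distrib]
    exact sum_congr rfl fun i _ => by ring
  · intro i
    rw [seq_init, seq_init]
    rfl

theorem seq_shift (b x : Fin (e + 1) → ℤ) (m n : ℕ) :
    seq b (fun i : Fin (e + 1) => seq b x (m + i)) n = seq b x (m + n) := by
  symm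
  apply eq_seq b _ (fun n => seq b x (m + n))
  · intro n
    rw [← add_assoc, seq_sol]
    exact sum_congr rfl fun i _ => by rw [add_assoc]
  · intro i
    rfl

/-- the shift by `m` -/
def sh (b : Fin (e + 1) → ℤ) (m : ℕ) : (Fin (e + 1) → ℤ) →ₗ[ℤ] (Fin (e + 1) → ℤ) where
  toFun x := fun i => seq b x (m + i)
  map_add' x y := by
    funext i
    exact seq_add b x y _
  map_smul' q x := by
    funext i
    exact seq_mul b x q _

/-- the backward step (multiplied by `b 0`) -/
def bk (b : Fin (e + 1) → ℤ) : (Fin (e + 1) → ℤ) →ₗ[ℤ] (Fin (e + 1) → ℤ) where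
  toFun x := Fin.cons (x (Fin.last e) - ∑ i : Fin e, b i.succ * x i.castSucc)
    (fun i : Fin e => b 0 * x i.castSucc)
  map_add' x y := by
    funext i
    refine Fin.cases ?_ (fun i => ?_) i
    · simp only [Fin.cons_zero, Pi.add_apply]
      have : ∑ i : Fin e, b i.succ * (x i.castSucc + y i.castSucc) =
          ∑ i : Fin e, b i.succ * x i.castSucc + ∑ i : Fin e, b i.succ * y i.castSucc := by
        rw [← sum_add_distrib]
        exact sum_congr rfl fun i _ => by ring
      rw [this]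
      ring
    · simp only [Fin.cons_succ, Pi.add_apply]
      ring
  map_smul' q x := by
    funext i
    refine Fin.cases ?_ (fun i => ?_) i
    · simp only [Fin.cons_zero, Pi.smul_apply, smul_eq_mul, RingHom.id_apply]
      have : ∑ i : Fin e, b i.succ * (q * x i.castSucc) =
          q * ∑ i : Fin e, b i.succ * x i.castSucc := by
        rw [mul_sum]
        exact sum_congr rfl fun i _ => by ring
      rw [this]
      ring
    · simp only [Fin.cons_succ, Pi.smul_apply, smul_eq_mul, RingHom.id_apply]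
      ring

theorem bk_zero (b x : Fin (e + 1) → ℤ) :
    bk b x 0 = x (Fin.last e) - ∑ i : Fin e, b i.succ * x i.castSucc := rfl

theorem bk_succ (b x : Fin (e + 1) → ℤ) (i : Fin e) : bk b x i.succ = b 0 * x i.castSucc := rfl

theorem seq_bk (b x : Fin (e + 1) → ℤ) (n : ℕ) : seq b (bk b x) (n + 1) = b 0 * seq b x n := by
  rw [← seq_mul]
  apply eq_seq b (fun i => b 0 * x i) (fun n => seq b (bk b x) (n + 1))
  · intro n
    have h := seq_sol b (bk b x) (n + 1)
    rw [show n + 1 + (e + 1) = n + (e + 1) + 1 by ring] at h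
    rw [h]
    exact sum_congr rfl fun i _ => by rw [show n + 1 + (i : ℕ) = n + i + 1 by ring]
  · intro i
    refine Fin.lastCases ?_ (fun i => ?_) i
    · have h := seq_sol b (bk b x) 0
      rw [zero_add] at h
      rw [Fin.val_last, h, Fin.sum_univ_succ]
      have h0 : seq b (bk b x) (0 + ((0 : Fin (e + 1)) : ℕ)) = bk b x 0 := by
        rw [zero_add]; exact seq_init b (bk b x) 0
      have h1 : ∀ i : Fin e, seq b (bk b x) (0 + (i.succ : ℕ)) = bk b x i.succ := by
        intro i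
        rw [zero_add]; exact seq_init b (bk b x) i.succ
      rw [h0, bk_zero]
      simp only [h1, bk_succ]
      have : ∑ i : Fin e, b i.succ * (b 0 * x i.castSucc) =
          b 0 * ∑ i : Fin e, b i.succ * x i.castSucc := by
        rw [mul_sum]
        exact sum_congr rfl fun i _ => by ring
      rw [this]
      ring
    · have h := seq_init b (bk b x) i.succ
      rw [Fin.val_succ] at h
      rw [Fin.val_castSucc, h, bk_succ]

theorem seq_bk_iter (b : Fin (e + 1) → ℤ) (k : ℕ) :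
    ∀ (x : Fin (e + 1) → ℤ) (n : ℕ), seq b ((bk b)^[k] x) (n + k) = b 0 ^ k * seq b x n := by
  induction k with
  | zero => intro x n; simp
  | succ k ih =>
    intro x n
    rw [Function.iterate_succ_apply', ← add_assoc, seq_bk, ih, pow_succ]
    ring

theorem up (b x : Fin (e + 1) → ℤ) (p : ℤ) (h : ∀ i, p ∣ x i) (n : ℕ) : p ∣ seq b x n := by
  choose y hy using h
  have hx : x = fun i => p * y i := funext hy
  rw [hx, seq_mul]
  exact dvd_mul_right _ _

theorem down (b x : Fin (e + 1) → ℤ) (p : ℤ) (hp : Prime p) (hb : ¬ p ∣ b 0) (j : ℕ) :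
    (∀ i : Fin (e + 1), p ∣ seq b x (j + i)) → ∀ i, p ∣ x i := by
  induction j with
  | zero =>
    intro h i
    have h1 := h i
    rw [zero_add, seq_init] at h1
    exact h1
  | succ j ih =>
    intro h
    apply ih
    have hs : ∀ i : Fin e, p ∣ seq b x (j + (i.succ : ℕ)) := by
      intro i
      have h1 := h i.castSucc
      rw [Fin.val_castSucc] at h1
      rw [Fin.val_succ, show j + ((i : ℕ) + 1) = j + 1 + i by ring]
      exact h1
    intro i
    refine Fin.cases ?_ hs i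
    have h2 := h (Fin.last e)
    rw [Fin.val_last, show j + 1 + e = j + (e + 1) by ring, seq_sol, Fin.sum_univ_succ] at h2
    have h3 : p ∣ ∑ i : Fin e, b i.succ * seq b x (j + (i.succ : ℕ)) :=
      dvd_sum fun i _ => (hs i).mul_left _
    have h4 := (Int.dvd_add_left h3).1 h2
    exact (hp.dvd_or_dvd h4).resolve_left hb

/-- the recurrence in both directions -/
def Rec (b : Fin (e + 1) → ℤ) (w : ℤ → ℚ) : Prop :=
  ∀ n : ℤ, w (n + ((e + 1 : ℕ) : ℤ)) = ∑ i : Fin (e + 1), (b i : ℚ) * w (n + ((i : ℕ) : ℤ))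

theorem rec_seq (b : Fin (e + 1) → ℤ) (w : ℤ → ℚ) (hw : Rec b w) (t : ℤ) (y : Fin (e + 1) → ℤ)
    (q : ℚ) (hq : q ≠ 0) (h : ∀ i : Fin (e + 1), w (t + ((i : ℕ) : ℤ)) = y i / q) (j : ℕ) :
    w (t + j) = seq b y j / q := by
  have h1 := map_seq (Int.castRingHom ℚ) b y j
  rw [eq_intCast] at h1
  rw [h1, eq_div_iff hq]
  apply eq_seq (fun i => (Int.castRingHom ℚ) (b i)) (fun i => (Int.castRingHom ℚ) (y i))
    (fun j => w (t + j) * q)
  · intro n
    have h2 := hw (t + n)
    push_cast at h2 ⊢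
    rw [show t + ((n : ℤ) + ((e : ℤ) + 1)) = t + n + ((e : ℤ) + 1) by ring, h2, sum_mul]
    refine sum_congr rfl fun i _ => ?_
    rw [eq_intCast, show t + ((n : ℤ) + ((i : ℕ) : ℤ)) = t + n + ((i : ℕ) : ℤ) by ring]
    ring
  · intro i
    rw [h i, div_mul_cancel₀ _ hq, eq_intCast]

theorem rec_back (b : Fin (e + 1) → ℤ) (hb : b 0 ≠ 0) (a : Fin (e + 1) → ℤ) (w : ℤ → ℚ)
    (hw : Rec b w) (h : ∀ i : Fin (e + 1), w ((i : ℕ) : ℤ) = a i) (k : ℕ) :
    ∀ i : Fin (e + 1), w (-(k : ℤ) + ((i : ℕ) : ℤ)) = ((bk b)^[k] a i : ℤ) / (b 0 : ℚ) ^ k := by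
  have hb' : (b 0 : ℚ) ≠ 0 := by exact_mod_cast hb
  induction k with
  | zero => intro i; simp [h i]
  | succ k ih =>
    set y := (bk b)^[k] a with hy
    have hstep : ∀ i : Fin e, w (-((k + 1 : ℕ) : ℤ) + ((i.succ : Fin (e + 1)) : ℕ)) =
        (y i.castSucc : ℚ) / (b 0 : ℚ) ^ k := by
      intro i
      have h1 := ih i.castSucc
      rw [Fin.val_castSucc] at h1
      rw [← h1, Fin.val_succ]
      congr 1
      push_cast
      ring
    intro i
    rw [Function.iterate_succ_apply', ← hy]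
    refine Fin.cases ?_ (fun i => ?_) i
    · have h2 := hw (-((k + 1 : ℕ) : ℤ))
      rw [Fin.sum_univ_succ] at h2
      have h3 : w (-((k + 1 : ℕ) : ℤ) + ((e + 1 : ℕ) : ℤ)) =
          (y (Fin.last e) : ℚ) / (b 0 : ℚ) ^ k := by
        have h1 := ih (Fin.last e)
        rw [Fin.val_last] at h1
        rw [← h1]
        congr 1
        push_cast
        ring
      rw [h3, sum_congr rfl fun i _ => by rw [hstep i]] at h2
      rw [bk_zero, eq_div_iff (pow_ne_zero _ hb')]
      push_cast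
      have h4 : (b 0 : ℚ) ^ k ≠ 0 := pow_ne_zero _ hb'
      have h5 : ∑ i : Fin e, (b i.succ : ℚ) * ((y i.castSucc : ℚ) / (b 0 : ℚ) ^ k) =
          (∑ i : Fin e, (b i.succ : ℚ) * (y i.castSucc : ℚ)) / (b 0 : ℚ) ^ k := by
        rw [sum_div]
        exact sum_congr rfl fun i _ => by rw [mul_div_assoc]
      rw [h5] at h2
      push_cast at h2
      have h6 := congrArg (fun z => z * (b 0 : ℚ) ^ k) h2
      simp only [add_mul, div_mul_cancel₀ _ h4] at h6
      rw [pow_succ]
      simp only [Fin.val_zero, Nat.cast_zero] at h6 ⊢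
      linear_combination -h6
    · rw [hstep i, bk_succ]
      push_cast
      rw [pow_succ, mul_comm ((b 0 : ℚ) ^ k), mul_div_mul_left _ _ hb']

theorem exists_rec (b : Fin (e + 1) → ℤ) (hb : b 0 ≠ 0) (a : Fin (e + 1) → ℤ) :
    ∃ w : ℤ → ℚ, Rec b w ∧ ∀ i : Fin (e + 1), w ((i : ℕ) : ℤ) = a i := by
  have hb' : (b 0 : ℚ) ≠ 0 := by exact_mod_cast hb
  let w : ℤ → ℚ := fun n => (seq b ((bk b)^[(-n).toNat] a) (n + (-n).toNat).toNat : ℤ) /
    (b 0 : ℚ) ^ (-n).toNat
  have hw : ∀ (n : ℤ) (k : ℕ), 0 ≤ n + k →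
      w n = (seq b ((bk b)^[k] a) (n + k).toNat : ℤ) / (b 0 : ℚ) ^ k := by
    intro n k hk
    obtain ⟨j, hj⟩ : ∃ j, k = j + (-n).toNat := ⟨k - (-n).toNat, by omega⟩
    have h1 : (n + k).toNat = (n + (-n).toNat).toNat + j := by omega
    rw [h1, hj, Function.iterate_add_apply, seq_bk_iter, pow_add]
    push_cast
    rw [mul_div_mul_left _ _ (pow_ne_zero _ hb')]
  refine ⟨w, ?_, ?_⟩
  · intro n
    have h1 : ∀ j : ℕ, w (n + j) = (seq b ((bk b)^[(-n).toNat] a)
        ((n + (-n).toNat).toNat + j) : ℤ) / (b 0 : ℚ) ^ (-n).toNat := by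
      intro j
      rw [hw (n + j) (-n).toNat (by omega)]
      congr 3
      omega
    rw [h1 (e + 1), seq_sol]
    simp only [h1]
    push_cast
    rw [sum_div]
    exact sum_congr rfl fun i _ => by rw [mul_div_assoc]
  · intro i
    rw [hw _ 0 (by omega)]
    simp only [Function.iterate_zero, id, pow_zero, div_one]
    have h2 : (((i : ℕ) : ℤ) + ((0 : ℕ) : ℤ)).toNat = (i : ℕ) := by omega
    rw [h2, seq_init]

theorem rec_iff (c a : Fin (e + 1) → ℤ) (w : ℤ → ℚ) :
    IsBi c a w ↔ Rec (fun i => c (Fin.rev i)) w ∧ ∀ i : Fin (e + 1), w ((i : ℕ) : ℤ) = a i := by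
  have h : ∀ n : ℤ, ∑ i : Fin (e + 1), (c i : ℚ) * w (n + ((e + 1 : ℕ) : ℤ) - 1 - ((i : ℕ) : ℤ)) =
      ∑ i : Fin (e + 1), (c (Fin.rev i) : ℚ) * w (n + ((i : ℕ) : ℤ)) := by
    intro n
    rw [← sum_rev]
    refine sum_congr rfl fun i _ => ?_
    congr 2
    rw [Fin.val_rev]
    have := i.2
    omega
  unfold IsBi Rec
  simp only [h]
  exact And.comm

theorem bi : S_BI := by
  intro d hd c hc m
  obtain ⟨e, rfl⟩ : ∃ e, d = e + 1 := ⟨d - 1, by omega⟩
  set b : Fin (e + 1) → ℤ := fun i => c (Fin.rev i) with hbdef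
  have hb0 : b 0 = c ⟨e + 1 - 1, by omega⟩ := by
    rw [hbdef]
    simp only
    congr 1
  rw [← hb0] at hc
  have hb' : (b 0 : ℚ) ≠ 0 := by exact_mod_cast hc
  have hfin : ∀ (L : (Fin (e + 1) → ℤ) →ₗ[ℤ] (Fin (e + 1) → ℤ)) (q : ℚ), q ≠ 0 →
      (∀ a w, Rec b w → (∀ i : Fin (e + 1), w ((i : ℕ) : ℤ) = a i) →
        ∀ j : ℕ, w (m + j) = seq b (L a) j / q) →
      ∀ a, (∃ w, IsBi c a w) ∧ ∀ w, IsBi c a w →
      (w m = 0 ↔ seq b (L a) 0 = 0) ∧
      ((∀ n, 1 ≤ n → seq b (L a) n ≠ 0) → ∀ n : ℤ, m < n → w n ≠ 0) := by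
    intro L q hq hL a
    refine ⟨?_, ?_⟩
    · obtain ⟨w, h1, h2⟩ := exists_rec b hc a
      exact ⟨w, (rec_iff c a w).2 ⟨h1, h2⟩⟩
    · intro w hw
      obtain ⟨h1, h2⟩ := (rec_iff c a w).1 hw
      have h3 := hL a w h1 h2
      refine ⟨?_, ?_⟩
      · have h4 := h3 0
        rw [Nat.cast_zero, add_zero] at h4
        rw [h4, div_eq_zero_iff]
        constructor
        · rintro (h5 | h5)
          · exact_mod_cast h5
          · exact absurd h5 hq
        · intro h5
          left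
          exact_mod_cast h5
      · intro hne n hn
        obtain ⟨j, hj⟩ : ∃ j : ℕ, n = m + j := ⟨(n - m).toNat, by omega⟩
        rw [hj, h3 j]
        refine div_ne_zero ?_ hq
        exact_mod_cast hne j (by omega)
  rcases le_or_gt 0 m with hm | hm
  · obtain ⟨M, rfl⟩ : ∃ M : ℕ, m = M := ⟨m.toNat, by omega⟩
    refine ⟨sh b M, M + 1, 1, 1, le_rfl, one_ne_zero, ?_, ?_, ?_⟩
    · intro a i
      show seq b (fun i : Fin (e + 1) => seq b a (M + i)) (1 + i) = _
      rw [seq_shift, one_mul]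
      congr 1
      ring
    · intro p hp hpc a ha
      rw [← hb0] at hpc
      exact down b a p (Nat.prime_iff_prime_int.1 hp) hpc M ha
    · refine hfin (sh b M) 1 one_ne_zero ?_
      intro a w hw h j
      show _ = ((seq b (fun i : Fin (e + 1) => seq b a (M + i)) j : ℤ) : ℚ) / 1
      rw [seq_shift]
      have h1 := rec_seq b w hw 0 a 1 one_ne_zero (fun i => by rw [zero_add, h i, div_one]) (M + j)
      rw [← h1]
      congr 1
      push_cast
      ring
  · obtain ⟨M, hM⟩ : ∃ M : ℕ, m = -(M : ℤ) := ⟨(-m).toNat, by omega⟩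
    have hM1 : 1 ≤ M := by omega
    have hpow : ∀ a, (bk b ^ M) a = (bk b)^[M] a := fun a => Module.End.pow_apply _ _ _
    refine ⟨bk b ^ M, 0, M, b 0 ^ M, hM1, pow_ne_zero _ hc, ?_, ?_, ?_⟩
    · intro a i
      rw [hpow, add_comm M, seq_bk_iter, zero_add]
    · intro p hp hpc a ha i
      rw [← hb0] at hpc
      have hpp := Nat.prime_iff_prime_int.1 hp
      have h1 := up b _ p ha (i + M)
      rw [hpow, seq_bk_iter, seq_init] at h1
      rcases hpp.dvd_or_dvd h1 with h2 | h2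
      · exact absurd (hpp.dvd_of_dvd_pow h2) hpc
      · exact h2
    · refine hfin (bk b ^ M) ((b 0 : ℚ) ^ M) (pow_ne_zero _ hb') ?_
      intro a w hw h j
      rw [hpow, hM]
      exact rec_seq b w hw (-(M : ℤ)) _ _ (pow_ne_zero _ hb') (rec_back b hc a w hw h M) j

end Pool.Agent.W919.SK.BI
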